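import Pool.Agent.H15.IX.TB

/-!
# idx_modules, row LA1: the two lattices, value by value
-/

set_option autoImplicit false

open Finset Pool.Agent.H15.IX

namespace Pool.Agent.H20.IX

universe u

section

variable {A E : Type u} [CommRing A] [Field E] [Algebra A E]

/-- `w` is a member of `N` of maximal value -/
def Mx (O : ValuationSubring E) (N : Submodule A E) (w : E) : Prop :=
  w ∈ N ∧ ∀ x ∈ N, O.valuation x ≤ O.valuation w

theorem val_alg (O : ValuationSubring E) (h : Ov A O) (a : A) :
    O.valuation (algebraMap A E a) ≤ 1 :=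
  (O.valuation_le_one_iff _).2 (h a)

theorem mx_span (O : ValuationSubring E) (h : Ov A O) (s : Set E) (w : E) (hw : w ∈ s)
    (hs : ∀ x ∈ s, O.valuation x ≤ O.valuation w) : Mx O (Submodule.span A s) w := by
  refine ⟨Submodule.subset_span hw, fun x hx => ?_⟩
  induction hx using Submodule.span_induction with
  | mem x hx => exact hs x hx
  | zero => rw [map_zero]; exact zero_le'
  | add x y _ _ hx hy => exact (O.valuation.map_add x y).trans (max_le hx hy)
  | smul a x _ hx =>
    rw [Algebra.smul_def, map_mul]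
    exact (mul_le_mul' (val_alg O h a) hx).trans (le_of_eq (one_mul _))

theorem mx_mul (O : ValuationSubring E) (M N : Submodule A E) (a b : E)
    (ha : Mx O M a) (hb : Mx O N b) : Mx O (M * N) (a * b) := by
  refine ⟨Submodule.mul_mem_mul ha.1 hb.1, fun x hx => ?_⟩
  induction hx using Submodule.mul_induction_on' with
  | mem_mul_mem m hm n hn =>
    rw [map_mul, map_mul]
    exact mul_le_mul' (ha.2 m hm) (hb.2 n hn)
  | add x _ y _ hx hy => exact (O.valuation.map_add x y).trans (max_le hx hy)

open Classical in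
theorem mx_prod (O : ValuationSubring E) (h : Ov A O) (s : Finset E) (M : E → Submodule A E)
    (w : E → E) (hs : ∀ i ∈ s, Mx O (M i) (w i)) : Mx O (∏ i ∈ s, M i) (∏ i ∈ s, w i) := by
  induction s using Finset.induction_on with
  | empty =>
    rw [prod_empty, prod_empty, Submodule.one_eq_span]
    exact mx_span O h {1} 1 rfl (fun x hx => by rw [Set.mem_singleton_iff.1 hx])
  | insert a s ha ih =>
    rw [prod_insert ha, prod_insert ha]
    exact mx_mul O _ _ _ _ (hs a (mem_insert_self a s))
      (ih (fun i hi => hs i (mem_insert_of_mem hi)))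

theorem mx_sup (O : ValuationSubring E) (s : Finset E) (M : E → Submodule A E)
    (w : E → E) (hs : ∀ i ∈ s, Mx O (M i) (w i)) (i₀ : E) (hi₀ : i₀ ∈ s)
    (hle : ∀ i ∈ s, O.valuation (w i) ≤ O.valuation (w i₀)) : Mx O (s.sup M) (w i₀) := by
  classical
  refine ⟨(Finset.le_sup (f := M) hi₀) (hs i₀ hi₀).1, ?_⟩
  have key : ∀ T : Finset E, T ⊆ s → ∀ x ∈ T.sup M, O.valuation x ≤ O.valuation (w i₀) := by
    intro T
    induction T using Finset.induction_on with
    | empty =>
      intro _ x hx
      rw [sup_empty, Submodule.mem_bot] at hx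
      rw [hx, map_zero]
      exact zero_le'
    | insert a T ha ih =>
      intro hT x hx
      rw [sup_insert, Submodule.mem_sup] at hx
      obtain ⟨y, hy, z, hz, rfl⟩ := hx
      have haT : a ∈ s := hT (mem_insert_self a T)
      exact (O.valuation.map_add y z).trans (max_le (((hs a haT).2 y hy).trans (hle a haT))
        (ih (fun i hi => hT (mem_insert_of_mem hi)) z hz))
  exact key s (Subset.refl s)

open Classical in
theorem fg_prod (s : Finset E) (M : E → Submodule A E) (h : ∀ i ∈ s, (M i).FG) :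
    (∏ i ∈ s, M i).FG := by
  induction s using Finset.induction_on with
  | empty =>
    rw [prod_empty, Submodule.one_eq_span]
    exact Submodule.fg_span_singleton _
  | insert a s ha ih =>
    rw [prod_insert ha]
    exact (h a (mem_insert_self a s)).mul (ih (fun i hi => h i (mem_insert_of_mem hi)))

end

open Classical in
theorem pf_LA1 : T_LA1.{u} := by
  intro A E _ _ _ t p F ht hp hF hF0
  set T : E := algebraMap A E t with hT
  set u : E → E := fun f => T * f ^ p with hu
  have hu0 : ∀ f ∈ F, u f ≠ 0 := fun f hf => mul_ne_zero ht (pow_ne_zero _ (hF0 f hf))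
  set m : E → Submodule A E := fun f => Submodule.span A ({1, u f, (u f)⁻¹} : Set E) with hm
  set N : E → Submodule A E := fun f => Submodule.span A {f⁻¹} * ∏ g ∈ F.erase f, m g with hN
  have hmfg : ∀ f, (m f).FG := fun f =>
    Submodule.fg_span (Set.toFinite _)
  refine ⟨∏ f ∈ F, m f, F.sup N, fg_prod F m (fun f _ => hmfg f), ?_, ?_⟩
  · apply Submodule.fg_finset_sup
    intro f _
    exact (Submodule.fg_span_singleton _).mul (fg_prod _ m (fun g _ => hmfg g))
  · intro O hO hex
    obtain ⟨f₀, hf₀, hv₀⟩ := hex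
    set v := O.valuation with hv
    set w : E → E := fun f => if 1 ≤ v (u f) then u f else (u f)⁻¹ with hw
    have hvu : ∀ f ∈ F, 0 < v (u f) := fun f hf => (O.valuation.pos_iff).2 (hu0 f hf)
    have hw1 : ∀ f ∈ F, 1 ≤ v (w f) ∧ 1 ≤ v (u f) * v (w f) ∧ v (u f) ≤ v (w f) ∧
        v (u f)⁻¹ ≤ v (w f) ∧ w f ≠ 0 := by
      intro f hf
      rw [hw]
      simp only
      split_ifs with h
      · refine ⟨h, one_le_mul h h, le_refl _, ?_, hu0 f hf⟩
        rw [map_inv₀]
        exact (inv_le_one_of_one_le₀ h).trans h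
      · push Not at h
        have h2 : 1 ≤ v (u f)⁻¹ := by
          rw [map_inv₀]
          exact (one_le_inv₀ (hvu f hf)).2 h.le
        refine ⟨h2, ?_, h.le.trans h2, le_refl _, inv_ne_zero (hu0 f hf)⟩
        rw [map_inv₀, mul_inv_cancel₀ (hvu f hf).ne']
    have hmx : ∀ f ∈ F, Mx O (m f) (w f) := by
      intro f hf
      obtain ⟨h1, -, h3, h4, -⟩ := hw1 f hf
      apply mx_span O hO
      · rw [hw]
        simp only
        split_ifs
        · simp
        · simp
      · intro x hx
        rcases hx with rfl | rfl | rfl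
        · rw [map_one]; exact h1
        · exact h3
        · exact h4
    set c : E → E := fun f => f⁻¹ * ∏ g ∈ F.erase f, w g with hc
    have hNx : ∀ f ∈ F, Mx O (N f) (c f) := by
      intro f hf
      apply mx_mul
      · exact mx_span O hO {f⁻¹} f⁻¹ rfl (fun x hx => by rw [Set.mem_singleton_iff.1 hx])
      · exact mx_prod O hO _ m w (fun g hg => hmx g (mem_of_mem_erase hg))
    have hprod : ∀ f ∈ F, ∏ g ∈ F, w g = w f * ∏ g ∈ F.erase f, w g := fun f hf =>
      (mul_prod_erase F w hf).symm
    have hkey : ∀ f ∈ F, v (c f) ^ p * (v (u f) * v (w f) ^ p) =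
        v T * v (∏ g ∈ F, w g) ^ p := by
      intro f hf
      rw [hprod f hf, ← map_pow, ← map_pow, ← map_pow, ← map_mul, ← map_mul, ← map_mul]
      congr 1
      rw [hc, hu]
      simp only
      have hf0 := hF0 f hf
      rw [mul_pow, mul_pow, inv_pow]
      field_simp
    have hge : ∀ f ∈ F, 1 ≤ v (u f) * v (w f) ^ p := by
      intro f hf
      obtain ⟨h1, h2, -, -, -⟩ := hw1 f hf
      obtain ⟨q, rfl⟩ : ∃ q, p = q + 1 := ⟨p - 1, by omega⟩
      rw [pow_succ', ← mul_assoc]
      exact one_le_mul h2 (one_le_pow₀ h1)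
    have hle1 : ∀ f ∈ F, v (c f) ^ p ≤ v T * v (∏ g ∈ F, w g) ^ p := by
      intro f hf
      rw [← hkey f hf]
      exact le_mul_of_one_le_right' (hge f hf)
    have heq : v (c f₀) ^ p = v T * v (∏ g ∈ F, w g) ^ p := by
      rw [← hkey f₀ hf₀]
      have h1 : v (u f₀) = 1 := hv₀
      have h2 : v (w f₀) = 1 := by
        rw [hw]
        simp only
        rw [if_pos (le_of_eq h1.symm), h1]
      rw [h1, h2, one_pow, mul_one, mul_one]
    have hle2 : ∀ f ∈ F, v (c f) ≤ v (c f₀) := by
      intro f hf
      have h1 : v (c f) ^ p ≤ v (c f₀) ^ p := by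
        rw [heq]
        exact hle1 f hf
      exact (pow_le_pow_iff_left₀ zero_le' zero_le' (by omega)).1 h1
    have hM0 := mx_prod O hO F m w hmx
    have hM1 := mx_sup O F N c hNx f₀ hf₀ hle2
    refine ⟨∏ g ∈ F, w g, hM0.1, c f₀, hM1.1, ?_, ?_, hM0.2, hM1.2, heq⟩
    · exact Finset.prod_ne_zero_iff.2 (fun f hf => (hw1 f hf).2.2.2.2)
    · exact mul_ne_zero (inv_ne_zero (hF0 f₀ hf₀))
        (Finset.prod_ne_zero_iff.2 (fun f hf => (hw1 f (mem_of_mem_erase hf)).2.2.2.2))

end Pool.Agent.H20.IX
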