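import Pool.Agent.H15.IX.TB

/-!
# idx_modules, row NOE: bigraded submodules
-/

set_option autoImplicit false

open Finset Pool.Agent.H15.IX Polynomial

namespace Pool.Agent.H20.IX

universe u

section

variable {A E : Type u} [CommRing A] [CommRing E] [Algebra A E]

/-- stability under the members of a set gives stability under the algebra it generates -/
theorem noe_closed {B : Type u} [CommRing B] [Algebra A B] (G : Set B) (N : Submodule A B)
    (h : ∀ g ∈ G, ∀ f ∈ N, g * f ∈ N) : ∀ s ∈ Algebra.adjoin A G, ∀ f ∈ N, s * f ∈ N := by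
  intro s hs
  induction hs using Algebra.adjoin_induction with
  | mem x hx => exact h x hx
  | algebraMap r =>
    intro f hf
    rw [← Algebra.smul_def]
    exact N.smul_mem r hf
  | add x y _ _ hx hy =>
    intro f hf
    rw [add_mul]
    exact N.add_mem (hx f hf) (hy f hf)
  | mul x y _ _ hx hy =>
    intro f hf
    rw [mul_assoc]
    exact hx _ (hy f hf)

/-- a stable `A`-submodule as a module over the algebra generated by `G` -/
def toS {B : Type u} [CommRing B] [Algebra A B] (G : Set B) (N : Submodule A B)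
    (h : ∀ g ∈ G, ∀ f ∈ N, g * f ∈ N) : Submodule (Algebra.adjoin A G) B where
  carrier := N
  add_mem' := fun ha hb => N.add_mem ha hb
  zero_mem' := N.zero_mem
  smul_mem' := fun s f hf => noe_closed G N h s.1 s.2 f hf

/-- the polynomials in two variables with coefficients in a family of submodules -/
def NP (P : ℕ → ℕ → Submodule A E) : Submodule A E[X][X] where
  carrier := {f | ∀ j k, (f.coeff k).coeff j ∈ P j k}
  add_mem' := by
    intro f g hf hg j k
    rw [coeff_add, coeff_add]
    exact (P j k).add_mem (hf j k) (hg j k)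
  zero_mem' := by
    intro j k
    rw [coeff_zero, coeff_zero]
    exact (P j k).zero_mem
  smul_mem' := by
    intro a f hf j k
    rw [coeff_smul, coeff_smul]
    exact (P j k).smul_mem a (hf j k)

/-- the first type of generators -/
noncomputable def gY : E →ₗ[A] E[X][X] where
  toFun y := C (C y * X)
  map_add' y z := by rw [C_add, add_mul, C_add]
  map_smul' a y := by
    rw [← smul_C, smul_mul_assoc, ← smul_C]
    rfl

/-- the second type of generators -/
noncomputable def gZ : E →ₗ[A] E[X][X] where
  toFun z := C (C z) * X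
  map_add' y z := by rw [C_add, C_add, add_mul]
  map_smul' a y := by
    rw [← smul_C, ← smul_C, smul_mul_assoc]
    rfl

theorem gY_coeff (y : E) (f : E[X][X]) (j k : ℕ) :
    ((gY (A := A) y * f).coeff k).coeff (j + 1) = y * (f.coeff k).coeff j := by
  change ((C (C y * X) * f).coeff k).coeff (j + 1) = _
  rw [coeff_C_mul, mul_assoc, coeff_C_mul, coeff_X_mul]

theorem gY_coeff0 (y : E) (f : E[X][X]) (k : ℕ) :
    ((gY (A := A) y * f).coeff k).coeff 0 = 0 := by
  change ((C (C y * X) * f).coeff k).coeff 0 = _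
  rw [coeff_C_mul, mul_assoc, coeff_C_mul, coeff_X_mul_zero, mul_zero]

theorem gZ_coeff (z : E) (f : E[X][X]) (j k : ℕ) :
    ((gZ (A := A) z * f).coeff (k + 1)).coeff j = z * (f.coeff k).coeff j := by
  change ((C (C z) * X * f).coeff (k + 1)).coeff j = _
  rw [mul_assoc, coeff_C_mul, coeff_X_mul, coeff_C_mul]

theorem gZ_coeff0 (z : E) (f : E[X][X]) (j : ℕ) :
    ((gZ (A := A) z * f).coeff 0).coeff j = 0 := by
  change ((C (C z) * X * f).coeff 0).coeff j = _
  rw [mul_assoc, coeff_C_mul, coeff_X_mul_zero, mul_zero, coeff_zero]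

/-- the generators -/
def GG (ys zs : Set E) : Set E[X][X] := (gY (A := A)) '' ys ∪ (gZ (A := A)) '' zs

theorem np_stable (Y Z : Submodule A E) (P : ℕ → ℕ → Submodule A E) (hP : Sb Y Z P)
    (ys zs : Set E) (hy : ys ⊆ Y) (hz : zs ⊆ Z) :
    ∀ g ∈ GG (A := A) ys zs, ∀ f ∈ NP P, g * f ∈ NP P := by
  rintro g (⟨y, hyy, rfl⟩ | ⟨z, hzz, rfl⟩) f hf j k
  · rcases j with _ | j
    · rw [gY_coeff0]
      exact (P 0 k).zero_mem
    · rw [gY_coeff]
      exact (hP j k).1 (Submodule.mul_mem_mul (hy hyy) (hf j k))
  · rcases k with _ | k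
    · rw [gZ_coeff0]
      exact (P j 0).zero_mem
    · rw [gZ_coeff]
      exact (hP j k).2 (Submodule.mul_mem_mul (hz hzz) (hf j k))

theorem gY_mon (y x : E) (j k : ℕ) : gY (A := A) y * monomial k (monomial j x) =
    monomial k (monomial (j + 1) (y * x)) := by
  change C (C y * X) * monomial k (monomial j x) = _
  rw [C_mul_monomial, mul_assoc, X_mul_monomial, C_mul_monomial]

theorem gZ_mon (z x : E) (j k : ℕ) : gZ (A := A) z * monomial k (monomial j x) =
    monomial (k + 1) (monomial j (z * x)) := by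
  change C (C z) * X * monomial k (monomial j x) = _
  rw [mul_assoc, X_mul_monomial, C_mul_monomial, C_mul_monomial]

/-- the submodules of a bigraded module generated in bounded degrees are generated by
finitely many elements -/
theorem np_fg (Y Z : Submodule A E) (P : ℕ → ℕ → Submodule A E)
    (hPfg : ∀ j k, (P j k).FG) (ys zs : Set E) (hy : Submodule.span A ys = Y)
    (hz : Submodule.span A zs = Z) (hP : Gn Y Z P)
    (h : ∀ g ∈ GG (A := A) ys zs, ∀ f ∈ NP P, g * f ∈ NP P) :
    (toS (GG (A := A) ys zs) (NP P) h).FG := by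
  classical
  obtain ⟨c, hc⟩ := hP
  choose T hT using hPfg
  set S := Algebra.adjoin A (GG (A := A) ys zs) with hS
  set 𝒢 : Set E[X][X] := ⋃ q ∈ (range (c + 1) ×ˢ range (c + 1)),
    (fun x => monomial q.2 (monomial q.1 x)) '' (T q.1 q.2 : Set E) with h𝒢
  have hfin : 𝒢.Finite := by
    rw [h𝒢]
    exact Set.Finite.biUnion (Finset.finite_toSet _) (fun q _ => (Finset.finite_toSet _).image _)
  set N : Submodule S E[X][X] := Submodule.span S 𝒢 with hN
  have hNA : ∀ (a : A) (f : E[X][X]), f ∈ N → a • f ∈ N := by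
    intro a f hf
    have h1 : a • f = (algebraMap A S a) • f := by
      rw [Subalgebra.smul_def, Algebra.smul_def]
      rfl
    rw [h1]
    exact N.smul_mem _ hf
  have hYS : ∀ y ∈ Y, gY (A := A) y ∈ S := by
    intro y hyy
    have h1 : Submodule.span A ys ≤ (Subalgebra.toSubmodule S).comap (gY (A := A)) := by
      rw [Submodule.span_le]
      intro w hw
      exact Algebra.subset_adjoin (Or.inl ⟨w, hw, rfl⟩)
    rw [hy] at h1
    exact h1 hyy
  have hZS : ∀ z ∈ Z, gZ (A := A) z ∈ S := by
    intro z hzz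
    have h1 : Submodule.span A zs ≤ (Subalgebra.toSubmodule S).comap (gZ (A := A)) := by
      rw [Submodule.span_le]
      intro w hw
      exact Algebra.subset_adjoin (Or.inr ⟨w, hw, rfl⟩)
    rw [hz] at h1
    exact h1 hzz
  have hsm : ∀ s ∈ S, ∀ f ∈ N, s * f ∈ N := fun s hs f hf => N.smul_mem (⟨s, hs⟩ : S) hf
  have h1 : ∀ j k, j ≤ c → k ≤ c → ∀ x ∈ P j k,
      (monomial k (monomial j x) : E[X][X]) ∈ N := by
    intro j k hj hk x hx
    rw [← hT] at hx
    induction hx using Submodule.span_induction with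
    | mem x hx =>
      apply Submodule.subset_span
      rw [h𝒢, Set.mem_iUnion₂]
      exact ⟨(j, k), by simp; omega, x, hx, rfl⟩
    | zero => rw [map_zero, map_zero]; exact N.zero_mem
    | add x y _ _ hx hy => rw [map_add, map_add]; exact N.add_mem hx hy
    | smul a x _ hx =>
      have := hNA a _ hx
      rwa [smul_monomial, smul_monomial] at this
  have h2 : ∀ j, j ≤ c → ∀ k, ∀ x ∈ P j k, (monomial k (monomial j x) : E[X][X]) ∈ N := by
    intro j hj k
    induction k with
    | zero => exact h1 j 0 hj (Nat.zero_le c)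
    | succ k ih =>
      intro x hx
      rcases Nat.lt_or_ge k c with hlt | hge
      · exact h1 j (k + 1) hj hlt x hx
      · have h3 : ∀ w ∈ Z * P j k, (monomial (k + 1) (monomial j w) : E[X][X]) ∈ N := by
          intro w hw
          induction hw using Submodule.mul_induction_on' with
          | mem_mul_mem z hz x hx =>
            rw [← gZ_mon (A := A)]
            exact hsm _ (hZS z hz) _ (ih x hx)
          | add x _ y _ hx hy =>
            rw [map_add, map_add]
            exact N.add_mem hx hy
        exact h3 x ((hc j k).2 hge hx)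
  have h3 : ∀ j k, ∀ x ∈ P j k, (monomial k (monomial j x) : E[X][X]) ∈ N := by
    intro j
    induction j with
    | zero => exact h2 0 (Nat.zero_le c)
    | succ j ih =>
      intro k x hx
      rcases Nat.lt_or_ge j c with hlt | hge
      · exact h2 (j + 1) hlt k x hx
      · have h4 : ∀ w ∈ Y * P j k, (monomial k (monomial (j + 1) w) : E[X][X]) ∈ N := by
          intro w hw
          induction hw using Submodule.mul_induction_on' with
          | mem_mul_mem y hy x hx =>
            rw [← gY_mon (A := A)]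
            exact hsm _ (hYS y hy) _ (ih k x hx)
          | add x _ y _ hx hy =>
            rw [map_add, map_add]
            exact N.add_mem hx hy
        exact h4 x ((hc j k).1 hge hx)
  have h4 : toS (GG (A := A) ys zs) (NP P) h = N := by
    apply le_antisymm
    · intro f hf
      have hf' : ∀ j k, (f.coeff k).coeff j ∈ P j k := hf
      rw [f.as_sum_support]
      refine Submodule.sum_mem _ (fun k _ => ?_)
      rw [(f.coeff k).as_sum_support, map_sum]
      exact Submodule.sum_mem _ (fun j _ => h3 j k _ (hf' j k))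
    · rw [hN, Submodule.span_le]
      intro f hf
      rw [h𝒢, Set.mem_iUnion₂] at hf
      obtain ⟨⟨j, k⟩, -, x, hx, rfl⟩ := hf
      have hx' : x ∈ P j k := by
        rw [← hT]
        exact Submodule.subset_span hx
      change ∀ j' k', _
      intro j' k'
      simp only
      rw [coeff_monomial]
      split_ifs with h5
      · rw [coeff_monomial]
        split_ifs with h6
        · rw [← h5, ← h6]
          exact hx'
        · exact Submodule.zero_mem _
      · rw [coeff_zero]
        exact Submodule.zero_mem _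
  rw [h4]
  exact Submodule.fg_span hfin

/-- the two submodules which describe generation in bounded degrees -/
def QY (Y : Submodule A E) (P : ℕ → ℕ → Submodule A E) (c : ℕ) : Submodule A E[X][X] where
  carrier := {f | (∀ j k, (f.coeff k).coeff j ∈ P j k) ∧
    ∀ j k, c ≤ j → (f.coeff k).coeff (j + 1) ∈ Y * P j k}
  add_mem' := by
    rintro f g ⟨hf, hf'⟩ ⟨hg, hg'⟩
    refine ⟨fun j k => ?_, fun j k hj => ?_⟩
    · rw [coeff_add, coeff_add]
      exact (P j k).add_mem (hf j k) (hg j k)
    · rw [coeff_add, coeff_add]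
      exact Submodule.add_mem _ (hf' j k hj) (hg' j k hj)
  zero_mem' := by
    refine ⟨fun j k => ?_, fun j k hj => ?_⟩
    · rw [coeff_zero, coeff_zero]
      exact (P j k).zero_mem
    · rw [coeff_zero, coeff_zero]
      exact Submodule.zero_mem _
  smul_mem' := by
    rintro a f ⟨hf, hf'⟩
    refine ⟨fun j k => ?_, fun j k hj => ?_⟩
    · rw [coeff_smul, coeff_smul]
      exact (P j k).smul_mem a (hf j k)
    · rw [coeff_smul, coeff_smul]
      exact Submodule.smul_mem _ a (hf' j k hj)

/-- the same for the second variable -/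
def QZ (Z : Submodule A E) (P : ℕ → ℕ → Submodule A E) (c : ℕ) : Submodule A E[X][X] where
  carrier := {f | (∀ j k, (f.coeff k).coeff j ∈ P j k) ∧
    ∀ j k, c ≤ k → (f.coeff (k + 1)).coeff j ∈ Z * P j k}
  add_mem' := by
    rintro f g ⟨hf, hf'⟩ ⟨hg, hg'⟩
    refine ⟨fun j k => ?_, fun j k hj => ?_⟩
    · rw [coeff_add, coeff_add]
      exact (P j k).add_mem (hf j k) (hg j k)
    · rw [coeff_add, coeff_add]
      exact Submodule.add_mem _ (hf' j k hj) (hg' j k hj)
  zero_mem' := by
    refine ⟨fun j k => ?_, fun j k hj => ?_⟩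
    · rw [coeff_zero, coeff_zero]
      exact (P j k).zero_mem
    · rw [coeff_zero, coeff_zero]
      exact Submodule.zero_mem _
  smul_mem' := by
    rintro a f ⟨hf, hf'⟩
    refine ⟨fun j k => ?_, fun j k hj => ?_⟩
    · rw [coeff_smul, coeff_smul]
      exact (P j k).smul_mem a (hf j k)
    · rw [coeff_smul, coeff_smul]
      exact Submodule.smul_mem _ a (hf' j k hj)

theorem qy_stable (Y Z : Submodule A E) (P : ℕ → ℕ → Submodule A E) (hP : Sb Y Z P) (c : ℕ)
    (ys zs : Set E) (hy : ys ⊆ Y) (hz : zs ⊆ Z) :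
    ∀ g ∈ GG (A := A) ys zs, ∀ f ∈ QY Y P c, g * f ∈ QY Y P c := by
  intro g hg f hf
  refine ⟨np_stable Y Z P hP ys zs hy hz g hg f hf.1, fun j k hj => ?_⟩
  rcases hg with ⟨y, hyy, rfl⟩ | ⟨z, hzz, rfl⟩
  · rw [gY_coeff]
    exact Submodule.mul_mem_mul (hy hyy) (hf.1 j k)
  · rcases k with _ | k
    · rw [gZ_coeff0]
      exact Submodule.zero_mem _
    · rw [gZ_coeff]
      have h1 : z * (f.coeff k).coeff (j + 1) ∈ Z * (Y * P j k) :=
        Submodule.mul_mem_mul (hz hzz) (hf.2 j k hj)
      have h2 : Z * (Y * P j k) ≤ Y * P j (k + 1) := by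
        rw [← mul_assoc, mul_comm Z Y, mul_assoc]
        exact Submodule.mul_le.2 (fun m hm n hn => Submodule.mul_mem_mul hm ((hP j k).2 hn))
      exact h2 h1

theorem qz_stable (Y Z : Submodule A E) (P : ℕ → ℕ → Submodule A E) (hP : Sb Y Z P) (c : ℕ)
    (ys zs : Set E) (hy : ys ⊆ Y) (hz : zs ⊆ Z) :
    ∀ g ∈ GG (A := A) ys zs, ∀ f ∈ QZ Z P c, g * f ∈ QZ Z P c := by
  intro g hg f hf
  refine ⟨np_stable Y Z P hP ys zs hy hz g hg f hf.1, fun j k hj => ?_⟩
  rcases hg with ⟨y, hyy, rfl⟩ | ⟨z, hzz, rfl⟩
  · rcases j with _ | j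
    · rw [gY_coeff0]
      exact Submodule.zero_mem _
    · rw [gY_coeff]
      have h1 : y * (f.coeff (k + 1)).coeff j ∈ Y * (Z * P j k) :=
        Submodule.mul_mem_mul (hy hyy) (hf.2 j k hj)
      have h2 : Y * (Z * P j k) ≤ Z * P (j + 1) k := by
        rw [← mul_assoc, mul_comm Y Z, mul_assoc]
        exact Submodule.mul_le.2 (fun m hm n hn => Submodule.mul_mem_mul hm ((hP j k).1 hn))
      exact h2 h1
  · rw [gZ_coeff]
    exact Submodule.mul_mem_mul (hz hzz) (hf.1 j k)

end

theorem pf_NOE : T_NOE.{u} := by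
  classical
  intro A E _ _ _ _ Y Z P P' hY hZ hPfg hle hP hP' hG
  obtain ⟨ys, hys⟩ := hY
  obtain ⟨zs, hzs⟩ := hZ
  have hy1 : (ys : Set E) ⊆ Y := by rw [← hys]; exact Submodule.subset_span
  have hz1 : (zs : Set E) ⊆ Z := by rw [← hzs]; exact Submodule.subset_span
  set G := GG (A := A) (ys : Set E) (zs : Set E) with hGG
  have hGfin : G.Finite := (ys.finite_toSet.image _).union (zs.finite_toSet.image _)
  have hft : Algebra.FiniteType A (Algebra.adjoin A G) := Algebra.FiniteType.adjoin_of_finite hGfin
  have hNoe : IsNoetherianRing (Algebra.adjoin A G) :=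
    Algebra.FiniteType.isNoetherianRing A (Algebra.adjoin A G)
  have hst := np_stable Y Z P hP (ys : Set E) (zs : Set E) hy1 hz1
  have hst' := np_stable Y Z P' hP' (ys : Set E) (zs : Set E) hy1 hz1
  have hfg := np_fg Y Z P hPfg (ys : Set E) (zs : Set E) hys hzs hG hst
  have hN : IsNoetherian (Algebra.adjoin A G) (toS G (NP P) hst) :=
    isNoetherian_of_fg_of_noetherian (R := Algebra.adjoin A G) (toS G (NP P) hst) hfg
  have hle' : toS G (NP P') hst' ≤ toS G (NP P) hst := by
    intro f hf j k
    exact hle j k (hf j k)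
  obtain ⟨W, hW⟩ := (isNoetherian_submodule.1 hN) _ hle'
  -- a bound for the degrees of the generators
  obtain ⟨c, hc⟩ : ∃ c : ℕ, ∀ f ∈ W, ∀ j k, c ≤ j ∨ c ≤ k → (f.coeff k).coeff j = 0 := by
    have h1 : ∀ f : E[X][X], ∃ c : ℕ, ∀ j k, c ≤ j ∨ c ≤ k → (f.coeff k).coeff j = 0 := by
      intro f
      refine ⟨(f.support.sup fun k => (f.coeff k).natDegree) + f.natDegree + 1, ?_⟩
      rintro j k (hj | hk)
      · by_cases hk : k ∈ f.support
        · apply coeff_eq_zero_of_natDegree_lt
          have h2 : (f.coeff k).natDegree ≤ f.support.sup fun k => (f.coeff k).natDegree :=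
            Finset.le_sup (f := fun k => (f.coeff k).natDegree) hk
          omega
        · rw [notMem_support_iff.1 hk, coeff_zero]
      · have h2 : f.coeff k = 0 := coeff_eq_zero_of_natDegree_lt (by omega)
        rw [h2, coeff_zero]
    choose d hd using h1
    refine ⟨W.sup d, fun f hf j k h => hd f j k ?_⟩
    have h2 : d f ≤ W.sup d := Finset.le_sup (f := d) hf
    omega
  have hQY : ∀ f ∈ NP P', f ∈ QY Y P' c := by
    have h1 : toS G (NP P') hst' ≤ toS G (QY Y P' c)
        (qy_stable Y Z P' hP' c (ys : Set E) (zs : Set E) hy1 hz1) := by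
      rw [← hW, Submodule.span_le]
      intro f hf
      have h2 : f ∈ toS G (NP P') hst' := by
        rw [← hW]
        exact Submodule.subset_span hf
      refine ⟨h2, fun j k hj => ?_⟩
      rw [hc f hf (j + 1) k (Or.inl (by omega))]
      exact Submodule.zero_mem _
    exact fun f hf => h1 hf
  have hQZ : ∀ f ∈ NP P', f ∈ QZ Z P' c := by
    have h1 : toS G (NP P') hst' ≤ toS G (QZ Z P' c)
        (qz_stable Y Z P' hP' c (ys : Set E) (zs : Set E) hy1 hz1) := by
      rw [← hW, Submodule.span_le]
      intro f hf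
      have h2 : f ∈ toS G (NP P') hst' := by
        rw [← hW]
        exact Submodule.subset_span hf
      refine ⟨h2, fun j k hj => ?_⟩
      rw [hc f hf j (k + 1) (Or.inr (by omega))]
      exact Submodule.zero_mem _
    exact fun f hf => h1 hf
  have hmon : ∀ j k, ∀ x ∈ P' j k, (monomial k (monomial j x) : E[X][X]) ∈ NP P' := by
    intro j k x hx j' k'
    rw [coeff_monomial]
    split_ifs with h5
    · rw [coeff_monomial]
      split_ifs with h6
      · rw [← h5, ← h6]
        exact hx
      · exact Submodule.zero_mem _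
    · rw [coeff_zero]
      exact Submodule.zero_mem _
  refine ⟨c, fun j k => ⟨fun hj x hx => ?_, fun hk x hx => ?_⟩⟩
  · have := (hQY _ (hmon (j + 1) k x hx)).2 j k hj
    rwa [coeff_monomial_same, coeff_monomial_same] at this
  · have := (hQZ _ (hmon j (k + 1) x hx)).2 j k hk
    rwa [coeff_monomial_same, coeff_monomial_same] at this

end Pool.Agent.H20.IX
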