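import Pool.Agent.H39.IX.Targets2
import Pool.Agent.H39.IX.Lmul

/-!
# Row DNY of ixm_modules: density in the 2-norm
-/

set_option autoImplicit false

open scoped InnerProductSpace Topology
open Filter Finset Pool.Agent.H80.G2 Pool.Agent.H39.IX

namespace Pool.Agent.H20.IX

theorem pf_DNY : T_DNY := by
  intro H _ _ _ N ξ hN S _ hstar hmul hone x hx δ hδ
  have h := hN.one.summable
  obtain ⟨V0, hV0⟩ : ∃ V0 : Submodule ℂ (KH H), V0 = (Submodule.span ℂ S).map (emb h) := ⟨_, rfl⟩
  obtain ⟨V, hV⟩ : ∃ V : Submodule ℂ (KH H), V = V0.topologicalClosure := ⟨_, rfl⟩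
  have hVc : IsClosed (V : Set (KH H)) := by
    rw [hV]
    exact V0.isClosed_topologicalClosure
  have hVcs : CompleteSpace V := hVc.completeSpace_coe
  have hinv0 : ∀ s ∈ S, ∀ t ∈ Submodule.span ℂ S, s * t ∈ Submodule.span ℂ S := by
    intro s hs t ht
    induction ht using Submodule.span_induction with
    | mem t ht => exact Submodule.subset_span (hmul s hs t ht)
    | zero =>
      rw [mul_zero]
      exact Submodule.zero_mem _
    | add t t' _ _ h1 h2 =>
      rw [mul_add]
      exact Submodule.add_mem _ h1 h2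
    | smul c t _ h1 =>
      rw [mul_smul_comm]
      exact Submodule.smul_mem _ c h1
  have hinv : ∀ s ∈ S, ∀ κ ∈ V, Lm s κ ∈ V := by
    intro s hs
    have h1 : V0.topologicalClosure ≤ V.comap ((Lm s : KH H →L[ℂ] KH H) : KH H →ₗ[ℂ] KH H) := by
      refine V0.topologicalClosure_minimal ?_ ?_
      · intro κ hκ
        rw [hV0] at hκ
        obtain ⟨t, ht, rfl⟩ := hκ
        show Lm s (emb h t) ∈ V
        rw [Lm_emb, hV, hV0]
        exact Submodule.le_topologicalClosure _ ⟨s * t, hinv0 s hs t ht, rfl⟩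
      · exact hVc.preimage (Lm s).continuous
    intro κ hκ
    rw [hV] at hκ
    exact h1 hκ
  -- the projection commutes with `S`
  have hp : ∀ s ∈ S, ∀ κ : KH H, V.starProjection (Lm s κ) = Lm s (V.starProjection κ) := by
    intro s hs κ
    refine Submodule.eq_starProjection_of_mem_orthogonal (hinv s hs _
      (V.starProjection_apply_mem κ)) ?_
    rw [Submodule.mem_orthogonal]
    intro u hu
    rw [← map_sub, ← ContinuousLinearMap.adjoint_inner_left, ← ContinuousLinearMap.star_eq_adjoint,
      ← Lm_star]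
    exact Submodule.inner_right_of_mem_orthogonal (hinv _ (hstar s hs) u hu)
      (V.sub_starProjection_mem_orthogonal κ)
  have hy : ∀ i j : ℕ, x * (Pn i ∘L V.starProjection ∘L In j) =
      (Pn i ∘L V.starProjection ∘L In j) * x := by
    intro i j
    refine hx _ fun s hs => ?_
    ext η
    show s (Pn i (V.starProjection (In j η))) = Pn i (V.starProjection (In j (s η)))
    rw [← Lm_In, hp s hs, Pn_Lm]
  have hcomm : ∀ κ : KH H, Lm x (V.starProjection κ) = V.starProjection (Lm x κ) := by
    intro κ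
    ext i
    have e1 : HasSum (fun j => x (Pn i (V.starProjection (In j (Pn j κ)))))
        (x (Pn i (V.starProjection κ))) :=
      (hasSum_In κ).mapL (x ∘L Pn i ∘L V.starProjection)
    have e2 : HasSum (fun j => Pn i (V.starProjection (Lm x (In j (Pn j κ)))))
        (Pn i (V.starProjection (Lm x κ))) :=
      (hasSum_In κ).mapL (Pn i ∘L V.starProjection ∘L Lm x)
    refine e1.unique ?_
    have e3 : (fun j => x (Pn i (V.starProjection (In j (Pn j κ))))) =
        fun j => Pn i (V.starProjection (Lm x (In j (Pn j κ)))) := by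
      funext j
      rw [Lm_In]
      exact DFunLike.congr_fun (hy i j) (Pn j κ)
    rw [e3]
    exact e2
  have h1V : emb h (1 : H →L[ℂ] H) ∈ V := by
    rw [hV, hV0]
    exact Submodule.le_topologicalClosure _ ⟨1, Submodule.subset_span hone, rfl⟩
  have hxV : emb h x ∈ V := by
    have e1 : emb h x = Lm x (emb h 1) := by rw [Lm_emb, mul_one]
    rw [e1, ← Submodule.starProjection_eq_self_iff.2 h1V, hcomm]
    exact V.starProjection_apply_mem _
  rw [hV] at hxV
  have hcl : emb h x ∈ closure (V0 : Set (KH H)) := hxV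
  obtain ⟨κ, hκ, hd⟩ := Metric.mem_closure_iff.1 hcl δ hδ
  rw [hV0] at hκ
  obtain ⟨s, hs, rfl⟩ := hκ
  refine ⟨s, hs, ?_⟩
  rw [dist_eq_norm, ← map_sub, norm_emb] at hd
  exact hd

end Pool.Agent.H20.IX
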