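import Pool.Agent.H39.IX.Targets2

/-!
# Row KZA of ixm_modules: one step of Kazhdan's iteration
-/

set_option autoImplicit false

open scoped InnerProductSpace Topology
open Filter Finset Pool.Agent.H80.G2 Pool.Agent.H39.IX

namespace Pool.Agent.H20.IX

section

variable {H : Type} [NormedAddCommGroup H] [InnerProductSpace ℂ H] [CompleteSpace H]
  {G : ℕ → Finset (H →L[ℂ] H)}

theorem grp_le (hG : GrpSeq G) {n k : ℕ} (h : n ≤ k) : G n ⊆ G k := by
  induction h with
  | refl => exact Finset.Subset.refl _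
  | step _ ih => exact ih.trans (hG.mono _)

theorem inG_mul (hG : GrpSeq G) {g h : H →L[ℂ] H} (hg : InG G g) (hh : InG G h) :
    InG G (g * h) := by
  obtain ⟨n, hn⟩ := hg
  obtain ⟨k, hk⟩ := hh
  exact ⟨max n k, hG.mul _ _ (grp_le hG (le_max_left n k) hn) _ (grp_le hG (le_max_right n k) hk)⟩

theorem inG_star (hG : GrpSeq G) {g : H →L[ℂ] H} (hg : InG G g) : InG G (star g) := by
  obtain ⟨n, hn⟩ := hg
  exact ⟨n, hG.star _ _ hn⟩

theorem inG_one (hG : GrpSeq G) : InG G (1 : H →L[ℂ] H) := ⟨0, hG.one 0⟩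

theorem inG_uni (hG : GrpSeq G) {g : H →L[ℂ] H} (hg : InG G g) : star g * g = 1 := by
  obtain ⟨n, hn⟩ := hg
  exact hG.uni _ _ hn

theorem m_sub_const {m : ((H →L[ℂ] H) → (H →L[ℂ] H)) → (H →L[ℂ] H)} (hm : IsMn G m)
    {φ : (H →L[ℂ] H) → (H →L[ℂ] H)} {C : ℝ} (hφ : Bd G φ C) (a : H →L[ℂ] H) :
    m (fun g => φ g - a) = m φ - a := by
  have h1 := hm.add φ (fun _ => -a) C ‖a‖ hφ fun g _ => le_of_eq (norm_neg a)
  rw [hm.cst] at h1
  simpa only [← sub_eq_add_neg] using h1

end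

theorem pf_KZA (hMN : T_MN) (hPOL : T_POL) : T_KZA := by
  intro H _ _ _ N G hG δ hδ0 hδ1 v hv
  obtain ⟨m, hm⟩ := hMN H G hG
  have hvn : ∀ g, InG G g → ‖v g‖ ≤ 1 := fun g hg => norm_of_uni (hv.uni g hg)
  have hvs : ∀ g, InG G g → ‖star (v g)‖ ≤ 1 := fun g hg => by
    rw [norm_star]
    exact hvn g hg
  obtain ⟨φ, hφ⟩ : ∃ φ : (H →L[ℂ] H) → (H →L[ℂ] H) → (H →L[ℂ] H),
    φ = fun g w => star (v w) * v (w * g) := ⟨_, rfl⟩
  have hφe : ∀ g w, φ g w = star (v w) * v (w * g) := fun g w => by rw [hφ]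
  have mulle : ∀ (a b : H →L[ℂ] H) (r s : ℝ), ‖a‖ ≤ r → ‖b‖ ≤ s → ‖a * b‖ ≤ r * s :=
    fun a b r s ha hb => (norm_mul_le _ _).trans
      (mul_le_mul ha hb (norm_nonneg _) ((norm_nonneg _).trans ha))
  have hbd : ∀ g, InG G g → Bd G (φ g) 1 := by
    intro g hg w hw
    rw [hφe]
    have := mulle _ _ 1 1 (hvs w hw) (hvn _ (inG_mul hG hw hg))
    rwa [one_mul] at this
  have hclose : ∀ g, InG G g → ∀ w, InG G w → ‖φ g w - v g‖ ≤ δ := by
    intro g hg w hw
    have e : φ g w - v g = star (v w) * (v (w * g) - v w * v g) := by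
      rw [hφe, mul_sub, ← mul_assoc (star (v w)) (v w), (hv.uni w hw).2.1, one_mul]
    rw [e]
    have := mulle _ _ 1 δ (hvs w hw) (hv.mul w hw g hg)
    rwa [one_mul] at this
  obtain ⟨T, hT⟩ : ∃ T : (H →L[ℂ] H) → (H →L[ℂ] H), T = fun g => m (φ g) := ⟨_, rfl⟩
  have hTe : ∀ g, T g = m (φ g) := fun g => by rw [hT]
  have hT1 : ∀ g, InG G g → ‖T g‖ ≤ 1 := fun g hg => by
    rw [hTe]
    exact hm.nrm _ 1 (hbd g hg)
  have hTv : ∀ g, InG G g → ‖T g - v g‖ ≤ δ := by
    intro g hg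
    rw [hTe, ← m_sub_const hm (hbd g hg)]
    exact hm.nrm _ δ fun w hw => hclose g hg w hw
  have hTs : ∀ g, InG G g → T (star g) = star (T g) := by
    intro g hg
    rw [hTe, hTe, ← hm.star (φ g) 1 (hbd g hg)]
    have hb : Bd G (fun w => star (φ g w)) 1 := fun w hw => by
      show ‖star (φ g w)‖ ≤ 1
      rw [norm_star]
      exact hbd g hg w hw
    rw [← hm.invr _ 1 hb (star g) (inG_star hG hg)]
    congr 1
    funext w
    show φ (star g) w = star (φ g (w * star g))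
    rw [hφe, hφe, star_mul, star_star, mul_assoc w, inG_uni hG hg, mul_one]
  have hTm : ∀ g, InG G g → ∀ h, InG G h → ‖T (g * h) - T g * T h‖ ≤ 4 * δ ^ 2 := by
    intro g hg h hh
    have hB : Bd G (fun w => φ h (w * g)) 1 := fun w hw => hbd h hh _ (inG_mul hG hw hg)
    have hmB : m (fun w => φ h (w * g)) = T h := by
      rw [hm.invr _ 1 (hbd h hh) g hg, hTe]
    have hAB : Bd G (fun w => φ g w * φ h (w * g)) 1 := fun w hw => by
      have := mulle _ _ 1 1 (hbd g hg w hw) (hB w hw)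
      rwa [one_mul] at this
    have hmAB : m (fun w => φ g w * φ h (w * g)) = T (g * h) := by
      rw [hTe]
      refine hm.eqv _ _ fun w hw => ?_
      rw [hφe, hφe, hφe, mul_assoc, ← mul_assoc (v (w * g)), (hv.uni _ (inG_mul hG hw hg)).2.2,
        one_mul, mul_assoc w]
    have hATh : Bd G (fun w => φ g w * (-T h)) 1 := fun w hw => by
      have := mulle _ (-T h) 1 1 (hbd g hg w hw) (by rw [norm_neg]; exact hT1 h hh)
      rwa [one_mul] at this
    have hTgB : Bd G (fun w => (-T g) * φ h (w * g)) 1 := fun w hw => by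
      have := mulle (-T g) _ 1 1 (by rw [norm_neg]; exact hT1 g hg) (hB w hw)
      rwa [one_mul] at this
    have hc : Bd G (fun _ => T g * T h) 1 := fun w hw => by
      have := mulle _ _ 1 1 (hT1 g hg) (hT1 h hh)
      rwa [one_mul] at this
    have h1 : Bd G (fun w => φ g w * φ h (w * g) + φ g w * (-T h)) (1 + 1) := fun w hw =>
      (norm_add_le _ _).trans (add_le_add (hAB w hw) (hATh w hw))
    have h2 : Bd G (fun w => (-T g) * φ h (w * g) + T g * T h) (1 + 1) := fun w hw =>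
      (norm_add_le _ _).trans (add_le_add (hTgB w hw) (hc w hw))
    have key : T (g * h) - T g * T h =
        m (fun w => (φ g w - T g) * (φ h (w * g) - T h)) := by
      have e1 : (fun w => (φ g w - T g) * (φ h (w * g) - T h)) =
          fun w => (φ g w * φ h (w * g) + φ g w * (-T h)) +
            ((-T g) * φ h (w * g) + T g * T h) := by
        funext w
        noncomm_ring
      rw [e1, hm.add _ _ _ _ h1 h2, hm.add _ _ _ _ hAB hATh, hm.add _ _ _ _ hTgB hc, hmAB,
        hm.mulr _ 1 (hbd g hg), hm.mull _ 1 hB, hm.cst, hmB, ← hTe]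
      noncomm_ring
    rw [key]
    refine hm.nrm _ _ fun w hw => ?_
    have h3 : ‖φ g w - T g‖ ≤ 2 * δ := by
      have e : φ g w - T g = (φ g w - v g) - (T g - v g) := by abel
      rw [e]
      exact (norm_sub_le _ _).trans (by linarith [hclose g hg w hw, hTv g hg])
    have h4 : ‖φ h (w * g) - T h‖ ≤ 2 * δ := by
      have e : φ h (w * g) - T h = (φ h (w * g) - v h) - (T h - v h) := by abel
      rw [e]
      exact (norm_sub_le _ _).trans (by linarith [hclose h hh _ (inG_mul hG hw hg), hTv h hh])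
    refine (mulle _ _ _ _ h3 h4).trans (le_of_eq (by ring))
  have hTone : T 1 = 1 := by
    rw [hTe]
    have e : m (φ 1) = m (fun _ => (1 : H →L[ℂ] H)) := hm.eqv _ _ fun w hw => by
      rw [hφe, mul_one, (hv.uni w hw).2.1]
    rw [e, hm.cst]
  have hTT : ∀ g, InG G g → ‖star (T g) * T g - 1‖ ≤ 4 * δ ^ 2 := by
    intro g hg
    have h1 := hTm _ (inG_star hG hg) g hg
    rw [inG_uni hG hg, hTone, hTs g hg] at h1
    rwa [← norm_neg, neg_sub]
  have hTN : ∀ g, InG G g → T g ∈ N := by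
    intro g hg
    rw [hTe]
    refine hm.mem _ 1 (hbd g hg) N fun w hw => ?_
    rw [hφe]
    exact mul_mem (star_mem (hv.uni w hw).1) (hv.uni _ (inG_mul hG hw hg)).1
  have hex : ∀ g : H →L[ℂ] H, ∃ v' : H →L[ℂ] H, InG G g →
      Uni N v' ∧ ‖v' - T g‖ ≤ 4 * δ ^ 2 := by
    intro g
    by_cases hg : InG G g
    · obtain ⟨v', h1, -, h3, h4, -⟩ := hPOL H (T g) (v g) δ (hv.uni g hg).2 (hTv g hg)
        (by linarith)
      exact ⟨v', fun _ => ⟨⟨h4 N (hTN g hg), h1.1, h1.2⟩, h3.trans (hTT g hg)⟩⟩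
    · exact ⟨0, fun h => absurd h hg⟩
  choose v' hv' using hex
  refine ⟨v', ⟨fun g hg => (hv' g hg).1, fun g hg h hh => ?_⟩, fun g hg => ?_⟩
  · have h1 := (hv' _ (inG_mul hG hg hh)).2
    have h2 := hTm g hg h hh
    have h3 := mulle _ _ _ _ (hv' g hg).2 (hT1 h hh)
    have h4 := mulle _ _ _ _ (norm_of_uni (hv' g hg).1) (hv' h hh).2
    have e : v' (g * h) - v' g * v' h = (v' (g * h) - T (g * h)) + (T (g * h) - T g * T h) -
        (v' g - T g) * T h - v' g * (v' h - T h) := by noncomm_ring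
    rw [e]
    have h5 := norm_sub_le ((v' (g * h) - T (g * h)) + (T (g * h) - T g * T h) -
        (v' g - T g) * T h) (v' g * (v' h - T h))
    have h6 := norm_sub_le ((v' (g * h) - T (g * h)) + (T (g * h) - T g * T h))
        ((v' g - T g) * T h)
    have h7 := norm_add_le (v' (g * h) - T (g * h)) (T (g * h) - T g * T h)
    nlinarith [sq_nonneg δ]
  · have e : v' g - v g = (v' g - T g) + (T g - v g) := by abel
    rw [e]
    exact (norm_add_le _ _).trans (by linarith [(hv' g hg).2, hTv g hg])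

end Pool.Agent.H20.IX
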